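import Pool.Agent.TH635.AN.Seq

set_option autoImplicit false

/-!
# The discrepancy function of a sequence is almost nowhere small

For every sequence in `[0,1]^d` and almost every `x` the discrepancy of the first `N` terms at `x` is at
least `c (log N)^(d/2)` for a set of `N` of upper density at least `c`, with `c` depending only on `d`;
a version with arbitrary real weights.  The proof starts from the bound in measure on the whole cube, with
arbitrary weights, of the library `Pool.Agent.H730R2.LD`; it is first shown inside every measurable set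
(`Pool.Agent.TH635.AN`).
-/

namespace Pool.Agent.Results.MP_173de9_an.AlmostNowhereSmall

open MeasureTheory Filter Finset

/-- The discrepancy function `∑_μ w_μ χ_{[0,x]}(ξ_μ) - M ∏_j x_j` of the points `ξ_μ` with the
weights `w_μ` (total mass compared with `M` times Lebesgue measure). -/
noncomputable def disc {n d : ℕ} (w : Fin n → ℝ) (ξ : Fin n → Fin d → ℝ) (M : ℝ) (x : Fin d → ℝ) :
    ℝ :=
  ∑ μ, (Set.Icc (0 : Fin d → ℝ) x).indicator (fun _ => w μ) (ξ μ) - M * ∏ j, x j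

/-- The discrepancy function of the first `N` terms of the sequence `ξ` with the weights `w`:
`∑_{n < N} w_n χ_{[0,x]}(ξ_n) - N ∏_j x_j`. -/
noncomputable def seqDisc {d : ℕ} (w : ℕ → ℝ) (ξ : ℕ → Fin d → ℝ) (N : ℕ) (x : Fin d → ℝ) : ℝ :=
  disc (fun n : Fin N => w n) (fun n : Fin N => ξ n) N x

theorem ind_eq {d : ℕ} (p x : Fin d → ℝ) (hp : p ∈ Set.Icc (0 : Fin d → ℝ) 1) (a : ℝ) :
    (Set.Icc (0 : Fin d → ℝ) x).indicator (fun _ => a) p = if ∀ i, p i ≤ x i then a else 0 := by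
  have hiff : p ∈ Set.Icc (0 : Fin d → ℝ) x ↔ ∀ i, p i ≤ x i :=
    ⟨fun h => h.2, fun h => ⟨hp.1, h⟩⟩
  by_cases hx : ∀ i, p i ≤ x i
  · rw [if_pos hx, Set.indicator_of_mem (hiff.2 hx)]
  · rw [if_neg hx, Set.indicator_of_notMem (fun h => hx (hiff.1 h))]

theorem disc_eq {n d : ℕ} (w : Fin n → ℝ) (ξ : Fin n → Fin d → ℝ)
    (hξ : ∀ μ, ξ μ ∈ Set.Icc (0 : Fin d → ℝ) 1) (M : ℝ) (x : Fin d → ℝ) :
    disc w ξ M x = H736R2.Lone.disc univ w ξ M x := by
  unfold disc H736R2.Lone.disc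
  congr 1
  apply Finset.sum_congr rfl
  intro μ _
  rw [ind_eq _ _ (hξ μ)]

theorem seqDisc_eq {d : ℕ} (w : ℕ → ℝ) (ξ : ℕ → Fin d → ℝ)
    (hξ : ∀ n, ξ n ∈ Set.Icc (0 : Fin d → ℝ) 1) (N : ℕ) (x : Fin d → ℝ) :
    seqDisc w ξ N x = H736R2.Lone.disc (range N) w ξ (N : ℝ) x := by
  unfold seqDisc disc H736R2.Lone.disc
  congr 1
  rw [← Fin.sum_univ_eq_sum_range (fun n => if ∀ i, ξ n i ≤ x i then w n else 0) N]
  apply Finset.sum_congr rfl
  intro μ _
  rw [ind_eq _ _ (hξ μ)]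

/-- **Theorem.** For every `d ≥ 1` there is `c > 0` such that
(1) for every sequence in `[0,1]^d` and almost every `x ∈ [0,1]^d` the set of all `N` for which the
discrepancy of the first `N` terms at `x` is at least `c (log N)^(d/2)` in absolute value has upper
density at least `c`: for infinitely many `M` it has at least `c M` elements below `M`;
(2) for every sequence in `[0,1]^d` with arbitrary real weights and almost every `x ∈ [0,1]^d` there is
`b > 0` such that the same holds for the set of all `N` for which the discrepancy of the first `N` terms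
at `x` is at least `b (log N)^(d/2)` in absolute value. -/
theorem result (d : ℕ) (hd : 1 ≤ d) : ∃ c : ℝ, 0 < c ∧
    (∀ ξ : ℕ → Fin d → ℝ, (∀ n, ξ n ∈ Set.Icc (0 : Fin d → ℝ) 1) →
      ∀ᵐ x ∂(volume.restrict (Set.Icc (0 : Fin d → ℝ) 1)), ∃ᶠ M : ℕ in atTop,
        c * M ≤ (Nat.card {N : ℕ // N < M ∧
          c * (Real.log N) ^ ((d : ℝ) / 2) ≤ |seqDisc (fun _ => 1) ξ N x|} : ℝ)) ∧
    (∀ (w : ℕ → ℝ) (ξ : ℕ → Fin d → ℝ), (∀ n, ξ n ∈ Set.Icc (0 : Fin d → ℝ) 1) →
      ∀ᵐ x ∂(volume.restrict (Set.Icc (0 : Fin d → ℝ) 1)), ∃ b : ℝ, 0 < b ∧ ∃ᶠ M : ℕ in atTop,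
        c * M ≤ (Nat.card {N : ℕ // N < M ∧
          b * (Real.log N) ^ ((d : ℝ) / 2) ≤ |seqDisc w ξ N x|} : ℝ)) := by
  classical
  have hcnt : ∀ (b : ℝ) (w : ℕ → ℝ) (ξ : ℕ → Fin d → ℝ),
      (∀ n, ξ n ∈ Set.Icc (0 : Fin d → ℝ) 1) → ∀ (M : ℕ) (x : Fin d → ℝ),
      (Nat.card {N : ℕ // N < M ∧ b * (Real.log N) ^ ((d : ℝ) / 2) ≤ |seqDisc w ξ N x|} : ℝ) =
        TH635.AN.cnt b w ξ M x := by
    intro b w ξ hξ M x
    norm_cast
    unfold TH635.AN.cnt
    apply Nat.subtype_card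
    intro N
    rw [Finset.mem_filter, Finset.mem_range, seqDisc_eq w ξ hξ]
  obtain ⟨c, hc, H⟩ := TH635.AN.seq_one d hd
  obtain ⟨c', hc', H'⟩ := TH635.AN.seq_weighted d hd
  refine ⟨min c c', lt_min hc hc', fun ξ hξ => ?_, fun w ξ hξ => ?_⟩
  · filter_upwards [H ξ] with x hx
    simp only [hcnt _ _ ξ hξ]
    refine hx.mono fun M hM => ?_
    calc min c c' * (M : ℝ) ≤ c * M :=
          mul_le_mul_of_nonneg_right (min_le_left _ _) (Nat.cast_nonneg M)
      _ ≤ _ := hM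
      _ ≤ _ := by exact_mod_cast TH635.AN.cnt_mono (min_le_left c c') _ ξ M x
  · filter_upwards [H' w ξ] with x hx
    simp only [hcnt _ _ ξ hξ]
    obtain ⟨b, hb, hx⟩ := hx
    refine ⟨b, hb, hx.mono fun M hM => ?_⟩
    exact (mul_le_mul_of_nonneg_right (min_le_right c c') (Nat.cast_nonneg M)).trans hM

end Pool.Agent.Results.MP_173de9_an.AlmostNowhereSmall
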