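import Pool.Agent.TH973.SD.N
import Pool.Agent.H730R2.LD.Meas

/-!
# `L_p` star discrepancy for large exponents, with arbitrary weights

For every `d ≥ 3` there is `c > 0` such that for all `m ≥ 3` and all `1 ≤ p ≤ ∞` the optimal
weighted `L_p` star discrepancy is at least
`c · min (√p, (ln m)^{1/(2d)} / (ln ln m)^{1/2}) · (ln m)^{(d-1)/2} / m`.
-/

set_option autoImplicit false

namespace Pool.Agent.Results.MP_173de9_an.LargeExponents

open MeasureTheory

/-- The local discrepancy `∏ x_j - Σ_μ λ_μ χ_{[0,x]}(ξ^μ)` of the points `ξ` with the weights `λ`. -/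
noncomputable def localDisc {m d : ℕ} (lam : Fin m → ℝ) (ξ : Fin m → Fin d → ℝ) (x : Fin d → ℝ) : ℝ :=
  ∏ j, x j - ∑ μ : Fin m, lam μ * (Set.Icc (0 : Fin d → ℝ) x).indicator (fun _ => (1:ℝ)) (ξ μ)

/-- The `L_p` norm of the weighted local discrepancy over `[0,1]^d`. -/
noncomputable def starDisc (p : ENNReal) {m d : ℕ} (lam : Fin m → ℝ) (ξ : Fin m → Fin d → ℝ) :
    ENNReal :=
  eLpNorm (localDisc lam ξ) p (volume.restrict (Set.Icc (0 : Fin d → ℝ) 1))

/-- `D(m,d)_p`: the infimum over all `m`-point sets (repetitions allowed) in `[0,1]^d`, all weights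
equal to `1 / m`. -/
noncomputable def optDisc (p : ENNReal) (m d : ℕ) : ENNReal :=
  ⨅ (ξ : Fin m → Fin d → ℝ) (_ : ∀ μ, ξ μ ∈ Set.Icc (0 : Fin d → ℝ) 1),
    starDisc p (fun _ => 1 / (m:ℝ)) ξ

/-- The infimum over all `m`-point sets in `[0,1]^d` and all real weights. -/
noncomputable def optWeighted (p : ENNReal) (m d : ℕ) : ENNReal :=
  ⨅ (lam : Fin m → ℝ) (ξ : Fin m → Fin d → ℝ) (_ : ∀ μ, ξ μ ∈ Set.Icc (0 : Fin d → ℝ) 1),
    starDisc p lam ξ

theorem disc_eq {N d : ℕ} {M : ℝ} (hM : 0 < M) (lam : Fin N → ℝ) (ξ : Fin N → Fin d → ℝ)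
    (hξ : ∀ μ, ξ μ ∈ Set.Icc (0 : Fin d → ℝ) 1) (x : Fin d → ℝ) :
    |H736R2.Lone.disc Finset.univ (fun μ => M * lam μ) ξ M x| = M * |localDisc lam ξ x| := by
  classical
  rw [← abs_of_pos hM, ← abs_mul, abs_of_pos hM, ← abs_neg]
  congr 1
  unfold localDisc H736R2.Lone.disc
  have : ∀ μ, (Set.Icc (0 : Fin d → ℝ) x).indicator (fun _ => (1:ℝ)) (ξ μ) =
      if ∀ i, ξ μ i ≤ x i then (1 : ℝ) else 0 := by
    intro μ
    have hiff : ξ μ ∈ Set.Icc (0 : Fin d → ℝ) x ↔ ∀ i, ξ μ i ≤ x i :=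
      ⟨fun h => h.2, fun h => ⟨(hξ μ).1, h⟩⟩
    by_cases hx : ∀ i, ξ μ i ≤ x i
    · rw [if_pos hx, Set.indicator_of_mem (hiff.2 hx)]
    · rw [if_neg hx, Set.indicator_of_notMem (fun h => hx (hiff.1 h))]
  simp only [this]
  rw [mul_sub, Finset.mul_sum, neg_sub]
  congr 1
  refine Finset.sum_congr rfl fun μ _ => ?_
  split_ifs <;> ring

theorem isProb (d : ℕ) : IsProbabilityMeasure
    (volume.restrict (Set.Icc (0 : Fin d → ℝ) 1)) := by
  constructor
  rw [Measure.restrict_apply_univ, Real.volume_Icc_pi]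
  simp

theorem measurable_localDisc {m d : ℕ} (lam : Fin m → ℝ) (ξ : Fin m → Fin d → ℝ) :
    Measurable (localDisc lam ξ) := TH973.SD.measurable_locD lam ξ

/-- the bound without the growth factor -/
theorem base (d : ℕ) (hd : 1 ≤ d) : ∃ c : ℝ, 0 < c ∧ ∀ m : ℕ, 2 ≤ m →
    ∀ (lam : Fin m → ℝ) (ξ : Fin m → Fin d → ℝ), (∀ μ, ξ μ ∈ Set.Icc (0 : Fin d → ℝ) 1) →
      ∀ p : ENNReal, 1 ≤ p →
        ENNReal.ofReal (c * (Real.log m) ^ (((d : ℝ) - 1) / 2) / m) ≤ starDisc p lam ξ := by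
  obtain ⟨ε, hε, c, hc, H⟩ := H730R2.LD.measure_sharp d hd 1
  have hprob := isProb d
  refine ⟨c * ε, by positivity, fun m hm lam ξ hξ p hp => ?_⟩
  have hm2 : (2 : ℝ) ≤ m := by exact_mod_cast hm
  have hm0 : (0 : ℝ) < m := by linarith
  have hL : 0 ≤ (Real.log m) ^ (((d : ℝ) - 1) / 2) :=
    Real.rpow_nonneg (Real.log_nonneg (by linarith)) _
  have key := H m hm2 (Fin m) Finset.univ (fun μ => m * lam μ) ξ (by simp)
  set θ : ℝ := c * (Real.log m) ^ (((d : ℝ) - 1) / 2) / m with hθ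
  have hθ0 : 0 ≤ θ := by positivity
  refine le_trans ?_ (eLpNorm_le_eLpNorm_of_exponent_le hp
    (measurable_localDisc lam ξ).aestronglyMeasurable)
  rw [eLpNorm_one_eq_lintegral_enorm]
  set A : Set (Fin d → ℝ) := {x | x ∈ Set.Icc (0 : Fin d → ℝ) 1 ∧ θ ≤ |localDisc lam ξ x|} with hA
  have hAm : MeasurableSet A :=
    measurableSet_Icc.inter (measurableSet_le measurable_const (measurable_localDisc lam ξ).abs)
  have hAv : ENNReal.ofReal ε ≤ volume A := by
    refine key.trans (measure_mono ?_)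
    rintro x ⟨hx1, hx2⟩
    refine ⟨hx1, ?_⟩
    rw [disc_eq hm0 lam ξ hξ x] at hx2
    rw [hθ, div_le_iff₀' hm0]
    exact hx2
  calc ENNReal.ofReal (c * ε * (Real.log m) ^ (((d : ℝ) - 1) / 2) / m)
      = ENNReal.ofReal (θ * ε) := by congr 1; rw [hθ]; ring
    _ = ENNReal.ofReal θ * ENNReal.ofReal ε := ENNReal.ofReal_mul hθ0
    _ ≤ ENNReal.ofReal θ * volume A := by gcongr
    _ = ∫⁻ _ in A, ENNReal.ofReal θ := by rw [setLIntegral_const]
    _ ≤ ∫⁻ x in A, ‖localDisc lam ξ x‖ₑ := by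
        apply setLIntegral_mono' hAm
        intro x hx
        rw [← ofReal_norm, Real.norm_eq_abs]
        exact ENNReal.ofReal_le_ofReal hx.2
    _ ≤ ∫⁻ x in Set.Icc (0 : Fin d → ℝ) 1, ‖localDisc lam ξ x‖ₑ :=
        lintegral_mono_set fun x hx => hx.1

/-- choice of the even exponent -/
theorem choose_exp {Mx : ℕ} (hMx : 1000 ≤ Mx) {p : ENNReal} (hp : 2002 ≤ p) :
    ∃ M : ℕ, 1000 ≤ M ∧ M ≤ Mx ∧ ((2 * M + 2 : ℕ) : ENNReal) ≤ p ∧
      (M = Mx ∨ p ^ (1 / 2 : ℝ) ≤ ENNReal.ofReal (2 * Real.sqrt M)) := by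
  by_cases htop : p = ⊤
  · exact ⟨Mx, hMx, le_refl _, by rw [htop]; exact le_top, Or.inl rfl⟩
  obtain ⟨r, rfl⟩ : ∃ r : NNReal, p = r := ⟨p.toNNReal, (ENNReal.coe_toNNReal htop).symm⟩
  have hr : (2002 : ℝ) ≤ r := by
    have : ((2002 : NNReal) : ENNReal) ≤ r := by simpa using hp
    exact_mod_cast this
  by_cases hMr : ((2 * Mx + 2 : ℕ) : ENNReal) ≤ (r : ENNReal)
  · exact ⟨Mx, hMx, le_refl _, hMr, Or.inl rfl⟩
  · have hlt : (r : ℝ) < 2 * Mx + 2 := by
      have h1 : (r : ENNReal) < ((2 * Mx + 2 : ℕ) : ENNReal) := not_le.1 hMr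
      have h2 : r < ((2 * Mx + 2 : ℕ) : NNReal) := by exact_mod_cast h1
      have h3 : (r : ℝ) < ((2 * Mx + 2 : ℕ) : ℝ) := by exact_mod_cast h2
      push_cast at h3
      exact h3
    set M : ℕ := ⌊((r : ℝ) - 2) / 2⌋₊ with hM
    have h0 : (0 : ℝ) ≤ ((r : ℝ) - 2) / 2 := by linarith
    have hle : (M : ℝ) ≤ ((r : ℝ) - 2) / 2 := Nat.floor_le h0
    have hge : ((r : ℝ) - 2) / 2 < M + 1 := Nat.lt_floor_add_one _
    refine ⟨M, ?_, ?_, ?_, Or.inr ?_⟩
    · apply Nat.le_floor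
      push_cast
      linarith
    · have : (M : ℝ) < Mx + 1 := by linarith
      exact_mod_cast (Nat.lt_succ_iff.1 (by exact_mod_cast this))
    · have h2 : ((2 * M + 2 : ℕ) : NNReal) ≤ r := by
        have h3 : ((2 * M + 2 : ℕ) : ℝ) ≤ r := by push_cast; linarith
        exact_mod_cast h3
      exact_mod_cast h2
    · have h4 : (r : ℝ) ≤ 4 * M := by linarith
      rw [← ENNReal.ofReal_coe_nnreal, ENNReal.ofReal_rpow_of_nonneg (by positivity) (by norm_num)]
      apply ENNReal.ofReal_le_ofReal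
      rw [← Real.sqrt_eq_rpow]
      calc Real.sqrt r ≤ Real.sqrt (2 ^ 2 * M) := Real.sqrt_le_sqrt (by linarith)
        _ = 2 * Real.sqrt M := by
            rw [Real.sqrt_mul (by norm_num), Real.sqrt_sq (by norm_num)]

/-- For every `d ≥ 3` there is `c > 0` such that for all `m ≥ 3` and all `1 ≤ p ≤ ∞` the optimal
`L_p` star discrepancy with arbitrary real weights is at least
`c (ln m)^((d-1)/2) / m` times the smaller one of `√p` and `(ln m)^(1/(2d)) / (ln ln m)^(1/2)`;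
and it is at most the optimal `L_p` star discrepancy `D(m,d)_p`, which so satisfies the same bound. -/
theorem result (d : ℕ) (hd : 3 ≤ d) : ∃ c : ℝ, 0 < c ∧ ∀ m : ℕ, 3 ≤ m →
    ∀ p : ENNReal, 1 ≤ p →
      ENNReal.ofReal (c * (Real.log m) ^ (((d : ℝ) - 1) / 2) / m) *
          min (p ^ (1 / 2 : ℝ))
            (ENNReal.ofReal ((Real.log m) ^ (1 / (2 * (d : ℝ))) /
              (Real.log (Real.log m)) ^ (1 / 2 : ℝ))) ≤ optWeighted p m d ∧
        optWeighted p m d ≤ optDisc p m d := by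
  classical
  obtain ⟨c₁, hc₁, H₁⟩ := base d (by omega)
  obtain ⟨c₂, hc₂, m₀, hm₀, H₂⟩ := TH973.SD.core d hd
  have hprob := isProb d
  set R : ℕ → ℝ := fun m => (Real.log m) ^ (1 / (2 * (d : ℝ))) /
    (Real.log (Real.log m)) ^ (1 / 2 : ℝ) with hR
  set B : ℝ := ∑ m ∈ Finset.range m₀, |R m| with hB
  have hB0 : 0 ≤ B := Finset.sum_nonneg fun _ _ => abs_nonneg _
  set K : ℝ := 2 + 1 / c₂ with hK
  have hK0 : 0 < K := by positivity
  set c : ℝ := min (c₁ / (B + 45)) (c₂ / K) with hc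
  have hc0 : 0 < c := lt_min (by positivity) (by positivity)
  have hcB : c * (B + 45) ≤ c₁ := by
    have : c ≤ c₁ / (B + 45) := min_le_left _ _
    rwa [le_div_iff₀ (by positivity)] at this
  have hcK : c * K ≤ c₂ := by
    have : c ≤ c₂ / K := min_le_right _ _
    rwa [le_div_iff₀ hK0] at this
  refine ⟨c, hc0, fun m hm p hp => ⟨?_, ?_⟩⟩
  swap
  · unfold optWeighted optDisc
    exact iInf_le _ (fun _ : Fin m => 1 / (m : ℝ))
  have hm3 : (3 : ℝ) ≤ m := by exact_mod_cast hm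
  have hmpos : (0 : ℝ) < m := by linarith
  set L : ℝ := (Real.log m) ^ (((d : ℝ) - 1) / 2) with hL
  have hL0 : 0 ≤ L := Real.rpow_nonneg (Real.log_nonneg (by linarith)) _
  -- the bounded case
  have small : ∀ t : ENNReal, t ≤ ENNReal.ofReal (B + 45) → ∀ (lam : Fin m → ℝ)
      (ξ : Fin m → Fin d → ℝ), (∀ μ, ξ μ ∈ Set.Icc (0 : Fin d → ℝ) 1) →
      ENNReal.ofReal (c * L / m) * t ≤ starDisc p lam ξ := by
    intro t ht lam ξ hξ
    refine le_trans ?_ (H₁ m (by omega) lam ξ hξ p hp)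
    calc ENNReal.ofReal (c * L / m) * t
        ≤ ENNReal.ofReal (c * L / m) * ENNReal.ofReal (B + 45) := by gcongr
      _ = ENNReal.ofReal (c * L / m * (B + 45)) := (ENNReal.ofReal_mul (by positivity)).symm
      _ ≤ ENNReal.ofReal (c₁ * L / m) := by
          apply ENNReal.ofReal_le_ofReal
          calc c * L / m * (B + 45) = (c * (B + 45)) * L / m := by ring
            _ ≤ c₁ * L / m := by gcongr
  unfold optWeighted
  refine le_iInf fun lam => le_iInf₂ fun ξ hξ => ?_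
  by_cases hmm : m < m₀
  · apply small _ _ lam ξ hξ
    refine (min_le_right _ _).trans (ENNReal.ofReal_le_ofReal ?_)
    have h1 : |R m| ≤ B := Finset.single_le_sum (f := fun m => |R m|)
      (fun _ _ => abs_nonneg _) (Finset.mem_range.2 hmm)
    have h2 := le_abs_self (R m)
    show R m ≤ B + 45
    linarith
  · rw [not_lt] at hmm
    by_cases hp2 : p < 2002
    · apply small _ _ lam ξ hξ
      refine (min_le_left _ _).trans ?_
      calc p ^ (1 / 2 : ℝ) ≤ (ENNReal.ofReal 2025) ^ (1 / 2 : ℝ) := by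
            apply ENNReal.rpow_le_rpow _ (by norm_num)
            refine hp2.le.trans ?_
            rw [show (2002 : ENNReal) = ENNReal.ofReal 2002 by norm_num]
            exact ENNReal.ofReal_le_ofReal (by norm_num)
        _ = ENNReal.ofReal 45 := by
            rw [ENNReal.ofReal_rpow_of_nonneg (by norm_num) (by norm_num), ← Real.sqrt_eq_rpow,
              show (2025 : ℝ) = 45 ^ 2 by norm_num, Real.sqrt_sq (by norm_num)]
        _ ≤ ENNReal.ofReal (B + 45) := ENNReal.ofReal_le_ofReal (by linarith)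
    · rw [not_lt] at hp2
      obtain ⟨Mx, hMx, hRx, H⟩ := H₂ m hmm
      obtain ⟨M, hM1, hM2, hM3, hM4⟩ := choose_exp hMx hp2
      have hmin : min (p ^ (1 / 2 : ℝ)) (ENNReal.ofReal (R m)) ≤
          ENNReal.ofReal (K * Real.sqrt M) := by
        have hs : 0 ≤ Real.sqrt M := Real.sqrt_nonneg _
        rcases hM4 with h | h
        · refine (min_le_right _ _).trans (ENNReal.ofReal_le_ofReal ?_)
          have h1 : R m ≤ 1 / c₂ * Real.sqrt M := by
            rw [h, one_div, ← div_eq_inv_mul, le_div_iff₀ hc₂, mul_comm]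
            exact hRx
          have h2 : 1 / c₂ * Real.sqrt M ≤ K * Real.sqrt M := by
            apply mul_le_mul_of_nonneg_right _ hs
            rw [hK]; linarith
          linarith
        · refine (min_le_left _ _).trans (h.trans (ENNReal.ofReal_le_ofReal ?_))
          apply mul_le_mul_of_nonneg_right _ hs
          rw [hK]
          have : 0 < 1 / c₂ := by positivity
          linarith
      calc ENNReal.ofReal (c * L / m) * min (p ^ (1 / 2 : ℝ)) (ENNReal.ofReal (R m))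
          ≤ ENNReal.ofReal (c * L / m) * ENNReal.ofReal (K * Real.sqrt M) := by gcongr
        _ = ENNReal.ofReal (c * L / m * (K * Real.sqrt M)) :=
            (ENNReal.ofReal_mul (by positivity)).symm
        _ ≤ ENNReal.ofReal (c₂ * Real.sqrt M * L / m) := by
            apply ENNReal.ofReal_le_ofReal
            have hs : 0 ≤ Real.sqrt M := Real.sqrt_nonneg _
            calc c * L / m * (K * Real.sqrt M) = (c * K) * Real.sqrt M * L / m := by ring
              _ ≤ c₂ * Real.sqrt M * L / m := by gcongr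
        _ ≤ starDisc ((2 * M + 2 : ℕ) : ENNReal) lam ξ := H M hM1 hM2 lam ξ hξ
        _ ≤ starDisc p lam ξ := eLpNorm_le_eLpNorm_of_exponent_le hM3
            (measurable_localDisc lam ξ).aestronglyMeasurable

end Pool.Agent.Results.MP_173de9_an.LargeExponents
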