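import Pool.Agent.TH635.NS.SetM

set_option autoImplicit false

/-!
# The discrepancy with respect to an arbitrary non-singular measure

The sharp lower bound `(log N)^((d-1)/2)` for the mean of the discrepancy function of `N` points holds
for every target measure `μ` on `[0,1]^d` which is not singular, and inside every measurable set on
which the density of the absolutely continuous part of `μ` does not vanish.
-/

namespace Pool.Agent.Results.MP_173de9_an.NonSingularTargets

open MeasureTheory Filter Finset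

/-- The discrepancy function `∑_j w_j χ_{[0,x]}(ξ_j) - M μ([0,x])` of the points `ξ_j` with the weights
`w_j` with respect to `M` times the measure `μ`. -/
noncomputable def disc {n d : ℕ} (w : Fin n → ℝ) (ξ : Fin n → Fin d → ℝ) (M : ℝ)
    (μ : Measure (Fin d → ℝ)) (x : Fin d → ℝ) : ℝ :=
  ∑ j, (Set.Icc (0 : Fin d → ℝ) x).indicator (fun _ => w j) (ξ j) -
    M * (μ (Set.Icc (0 : Fin d → ℝ) x)).toReal

theorem ind_eq {d : ℕ} (p x : Fin d → ℝ) (hp : p ∈ Set.Icc (0 : Fin d → ℝ) 1) (a : ℝ) :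
    (Set.Icc (0 : Fin d → ℝ) x).indicator (fun _ => a) p = if ∀ i, p i ≤ x i then a else 0 := by
  have hiff : p ∈ Set.Icc (0 : Fin d → ℝ) x ↔ ∀ i, p i ≤ x i :=
    ⟨fun h => h.2, fun h => ⟨hp.1, h⟩⟩
  by_cases hx : ∀ i, p i ≤ x i
  · rw [if_pos hx, Set.indicator_of_mem (hiff.2 hx)]
  · rw [if_neg hx, Set.indicator_of_notMem (fun h => hx (hiff.1 h))]

theorem disc_eq {n d : ℕ} (w : Fin n → ℝ) (ξ : Fin n → Fin d → ℝ)
    (hξ : ∀ j, ξ j ∈ Set.Icc (0 : Fin d → ℝ) 1) (M : ℝ) (μ : Measure (Fin d → ℝ))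
    (hμ : μ (Set.Icc (0 : Fin d → ℝ) 1)ᶜ = 0) (x : Fin d → ℝ) :
    disc w ξ M μ x = TH635.NS.DM univ w ξ M μ x := by
  unfold disc TH635.NS.DM
  congr 1
  · apply Finset.sum_congr rfl
    intro j _
    rw [ind_eq _ _ (hξ j)]
  · rw [measureReal_def]
    congr 2
    apply le_antisymm
    · exact measure_mono fun z hz => hz.2
    · calc μ (Set.Iic x) ≤ μ (Set.Icc (0 : Fin d → ℝ) x ∪ (Set.Icc (0 : Fin d → ℝ) 1)ᶜ) := by
            apply measure_mono
            intro z hz
            by_cases h : z ∈ Set.Icc (0 : Fin d → ℝ) 1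
            · exact Or.inl ⟨h.1, hz⟩
            · exact Or.inr h
        _ ≤ μ (Set.Icc (0 : Fin d → ℝ) x) + μ (Set.Icc (0 : Fin d → ℝ) 1)ᶜ := measure_union_le _ _
        _ = _ := by rw [hμ, add_zero]

/-- **Theorem.** For every `d ≥ 1` there is `c > 0` with the following property.  Let `μ` be a
probability measure on `[0,1]^d` and let `E ⊆ [0,1]^d` be a measurable set of positive Lebesgue measure
on which the density of the absolutely continuous part of `μ` does not vanish.  Then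
(1) for all large `N` and all `N` points of `[0,1]^d` the discrepancy function with respect to `N μ` is
at least `c (log N)^((d-1)/2)` in absolute value on a part of `E` of Lebesgue measure at least `c |E|`;
(2) for every `K` there is `b > 0` such that for all large `N`, at most `K N` points and arbitrary real
weights the discrepancy function with respect to `N μ` is at least `b (log N)^((d-1)/2)` in absolute
value on a part of `E` of Lebesgue measure at least `c |E|`. -/
theorem result (d : ℕ) (hd : 1 ≤ d) : ∃ c : ℝ, 0 < c ∧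
    ∀ μ : Measure (Fin d → ℝ), IsProbabilityMeasure μ → μ (Set.Icc (0 : Fin d → ℝ) 1)ᶜ = 0 →
      ∀ E : Set (Fin d → ℝ), MeasurableSet E → E ⊆ Set.Icc (0 : Fin d → ℝ) 1 → 0 < volume E →
        (∀ x ∈ E, μ.rnDeriv volume x ≠ 0) →
      (∃ N₀ : ℕ, ∀ N : ℕ, N₀ ≤ N → ∀ ξ : Fin N → Fin d → ℝ,
        (∀ j, ξ j ∈ Set.Icc (0 : Fin d → ℝ) 1) →
        ENNReal.ofReal c * volume E ≤
          volume {x ∈ E | c * (Real.log N) ^ (((d : ℝ) - 1) / 2) ≤ |disc (fun _ => 1) ξ N μ x|}) ∧
      (∀ K : ℝ, ∃ b : ℝ, 0 < b ∧ ∃ N₀ : ℕ, ∀ N : ℕ, N₀ ≤ N →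
        ∀ n : ℕ, (n : ℝ) ≤ K * N → ∀ (w : Fin n → ℝ) (ξ : Fin n → Fin d → ℝ),
        (∀ j, ξ j ∈ Set.Icc (0 : Fin d → ℝ) 1) →
        ENNReal.ofReal c * volume E ≤
          volume {x ∈ E | b * (Real.log N) ^ (((d : ℝ) - 1) / 2) ≤ |disc w ξ N μ x|}) := by
  classical
  obtain ⟨κ, hκ, c, hc, H⟩ := TH635.NS.setm_one d hd
  obtain ⟨κ', hκ', H'⟩ := TH635.NS.setm_weighted d hd
  refine ⟨min (min κ κ') c, lt_min (lt_min hκ hκ') hc, ?_⟩
  intro μ _ hμ E hE hEI hpos hden
  have hfin : volume E ≠ ⊤ := by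
    refine ne_top_of_le_ne_top ?_ (measure_mono hEI)
    rw [TH635.AN.volume_unit]
    exact ENNReal.one_ne_top
  refine ⟨?_, fun K => ?_⟩
  · obtain ⟨N₀, hN₀⟩ := eventually_atTop.1
      ((tendsto_natCast_atTop_atTop (R := ℝ)).eventually (H μ E hE hfin hpos hden))
    refine ⟨N₀, fun N hN ξ hξ => ?_⟩
    refine le_trans ?_ ((hN₀ N hN (Fin N) univ ξ).trans (measure_mono ?_))
    · gcongr
      exact (min_le_left _ _).trans (min_le_left _ _)
    · rintro x ⟨hx1, hx2⟩
      refine ⟨hx1, ?_⟩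
      rw [disc_eq _ _ hξ _ _ hμ]
      refine le_trans ?_ hx2
      apply mul_le_mul_of_nonneg_right (min_le_right _ _)
      exact Real.rpow_nonneg (Real.log_natCast_nonneg N) _
  · obtain ⟨b, hb, H'⟩ := H' μ E hE hfin hpos hden K
    obtain ⟨N₀, hN₀⟩ := eventually_atTop.1 ((tendsto_natCast_atTop_atTop (R := ℝ)).eventually H')
    refine ⟨b, hb, N₀, fun N hN n hn w ξ hξ => ?_⟩
    refine le_trans ?_ ((hN₀ N hN (Fin n) univ w ξ (by simpa using hn)).trans (measure_mono ?_))
    · gcongr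
      exact (min_le_left _ _).trans (min_le_right _ _)
    · rintro x ⟨hx1, hx2⟩
      refine ⟨hx1, ?_⟩
      rwa [disc_eq _ _ hξ _ _ hμ]

end Pool.Agent.Results.MP_173de9_an.NonSingularTargets
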