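import Pool.Agent.TH635.RL.Cat

set_option autoImplicit false

/-!
# The points of large discrepancy of a sequence form a residual set

For every sequence in `[0,1]^d`, `d ≥ 2`, all points `x` of the cube outside of a set of first category
have discrepancy at least `c (log N)^(d/2 + 1/(2(d+1))) / (log log N)^(1/2)` for infinitely many `N`.
-/

namespace Pool.Agent.Results.MP_173de9_an.ResidualLarge

open Filter Finset

/-- The discrepancy function of the first `N` terms of the sequence `ξ`: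
`∑_{n < N} χ_{[0,x]}(ξ_n) - N ∏_j x_j`. -/
noncomputable def seqDisc {d : ℕ} (ξ : ℕ → Fin d → ℝ) (N : ℕ) (x : Fin d → ℝ) : ℝ :=
  ∑ n ∈ range N, (Set.Icc (0 : Fin d → ℝ) x).indicator (fun _ => (1 : ℝ)) (ξ n) - N * ∏ j, x j

theorem seqDisc_eq {d : ℕ} (ξ : ℕ → Fin d → ℝ) (hξ : ∀ n, ξ n ∈ Set.Icc (0 : Fin d → ℝ) 1) (N : ℕ)
    (x : Fin d → ℝ) : seqDisc ξ N x = TH635.RL.D ξ N x := by
  unfold seqDisc TH635.RL.D H736R2.Lone.disc
  congr 1
  apply Finset.sum_congr rfl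
  intro n _
  have hiff : ξ n ∈ Set.Icc (0 : Fin d → ℝ) x ↔ ∀ i, ξ n i ≤ x i :=
    ⟨fun h => h.2, fun h => ⟨(hξ n).1, h⟩⟩
  by_cases hx : ∀ i, ξ n i ≤ x i
  · rw [if_pos hx, Set.indicator_of_mem (hiff.2 hx)]
  · rw [if_neg hx, Set.indicator_of_notMem (fun h => hx (hiff.1 h))]

/-- **Theorem.** For every `d ≥ 2` there is `c > 0` such that for every sequence in `[0,1]^d` the set of
all `x ∈ [0,1]^d` for which the discrepancy of the first `N` terms at `x` is not infinitely often at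
least `c (log N)^(d/2 + 1/(2(d+1))) / (log log N)^(1/2)` in absolute value is meagre (of first
category). -/
theorem result (d : ℕ) (hd : 2 ≤ d) : ∃ c : ℝ, 0 < c ∧
    ∀ ξ : ℕ → Fin d → ℝ, (∀ n, ξ n ∈ Set.Icc (0 : Fin d → ℝ) 1) →
      IsMeagre {x : Fin d → ℝ | x ∈ Set.Icc (0 : Fin d → ℝ) 1 ∧ ¬ ∃ᶠ N : ℕ in atTop,
        c * ((Real.log N) ^ ((d : ℝ) / 2 + 1 / (2 * ((d : ℝ) + 1))) /
          (Real.log (Real.log N)) ^ (1 / 2 : ℝ)) ≤ |seqDisc ξ N x|} := by
  obtain ⟨c, hc, H⟩ := TH635.RL.residual_large d hd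
  refine ⟨c, hc, fun ξ hξ => ?_⟩
  simp only [seqDisc_eq ξ hξ]
  exact H ξ

end Pool.Agent.Results.MP_173de9_an.ResidualLarge
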